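import Pool.Agent.P.MP_f511bc_an.Nb.Final
import Pool.Agent.P.MP_f511bc_an.Pos.Main

open Filter Topology Finset

universe u

namespace Pool.Agent.Results.MP_f511bc_an.Dichotomy

open Pool.Agent.P.MP_f511bc_an

theorem result (K : Type u) [RCLike K] (t : ℕ → ℕ → K) (ht : Consistent t)
    (h1 : Tendsto (fun n => ∑' m, ‖t n m‖) atTop (𝓝 1)) :
    (∀ (E : Type u) [NormedAddCommGroup E] [NormedSpace K E] [CompleteSpace E],
      (∃ x : ℕ → E, IsTBasis t x) → ∃ x : ℕ → E, ∀ y : E, ∃! α : ℕ → K,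
        Tendsto (fun n => ∑ i ∈ range n, α i • x i) atTop (𝓝 y)) ↔ ¬ SmallRuns t := by
  refine ⟨fun h hs => ?_, fun hs E _ _ _ ⟨_, hx⟩ => Pos.main ht h1 hs hx⟩
  obtain ⟨E, _, _, _, h2, h3⟩ := Nb.final K
  obtain ⟨x, hx⟩ := h E (h2 t ht hs)
  exact h3 x hx

/-- A consistent matrix with real nonnegative entries satisfies the hypothesis on the rows. -/
theorem nonneg (K : Type u) [RCLike K] (s : ℕ → ℕ → ℝ) (hs : ∀ n m, 0 ≤ s n m)
    (ht : Consistent fun n m => (s n m : K)) :
    Tendsto (fun n => ∑' m, ‖(s n m : K)‖) atTop (𝓝 1) := by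
  have h := (RCLike.continuous_re.tendsto _).comp ht.2.2
  simp only [Function.comp_def, ← RCLike.ofReal_tsum, RCLike.ofReal_re, RCLike.one_re] at h
  simpa only [RCLike.norm_ofReal, abs_of_nonneg (hs _ _)] using h

/-- The Cesaro matrix is consistent and triangular, and by `result` some Banach space over `K`
has a Cesaro basis and no Schauder basis. -/
theorem cesaro (K : Type u) [RCLike K] :
    Consistent (fun n m : ℕ => if m ≤ n then (1 : K) / (n + 1) else 0) ∧
    Triangular (fun n m : ℕ => if m ≤ n then (1 : K) / (n + 1) else 0) ∧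
    ¬ ∀ (E : Type u) [NormedAddCommGroup E] [NormedSpace K E] [CompleteSpace E],
      (∃ x : ℕ → E, IsTBasis (fun n m : ℕ => if m ≤ n then (1 : K) / (n + 1) else 0) x) →
      ∃ x : ℕ → E, ∀ y : E, ∃! α : ℕ → K,
        Tendsto (fun n => ∑ i ∈ range n, α i • x i) atTop (𝓝 y) := by
  have e : (fun n m : ℕ => if m ≤ n then (1 : K) / (n + 1) else 0)
      = fun n m : ℕ => ((if m ≤ n then (1 : ℝ) / (n + 1) else 0 : ℝ) : K) := by
    funext n m
    split_ifs <;> simp
  refine ⟨cesaro_ok.1, fun _ _ h => if_neg (not_le.2 h), fun h => ?_⟩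
  refine (result K _ cesaro_ok.1 ?_).1 h cesaro_ok.2
  have h1 := nonneg K (fun n m : ℕ => if m ≤ n then (1 : ℝ) / (n + 1) else 0)
    (fun n m => by split_ifs <;> positivity) (e ▸ cesaro_ok.1)
  simpa only [← congrFun₂ e] using h1

end Pool.Agent.Results.MP_f511bc_an.Dichotomy
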