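import Pool.Agent.P.MP_f511bc_an.Nf.Final
import Pool.Agent.P.MP_f511bc_an.Nf.Side
import Pool.Agent.P.MP_f511bc_an.Fill

open Filter Topology Finset

namespace Pool.Agent.Results.MP_f511bc_an.NoProjections

open Pool.Agent.P.MP_f511bc_an

theorem result :
    ∃ (E : Type) (_ : NormedAddCommGroup E) (_ : NormedSpace ℝ E), CompleteSpace E ∧
      Function.Surjective (NormedSpace.inclusionInDoubleDual ℝ E) ∧
      (∃ x : ℕ → E, ∀ t : ℕ → ℕ → ℝ, Consistent t →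
        (∃ C : ℝ, ∀ n m : ℕ, ((m : ℝ) + 1) * |t n m| ≤ C) → IsTBasis t x) ∧
      ∀ P : ℕ → E →L[ℝ] E, (∀ i y, P i (P i y) = P i y) →
        (∀ i, FiniteDimensional ℝ (LinearMap.range (P i : E →ₗ[ℝ] E))) →
        ¬ ∀ y, Tendsto (fun i => P i y) atTop (𝓝 y) :=
  Nf.final

/-- The space of `result` has a Cesaro basis, no Schauder basis and no decomposition into
finite-dimensional subspaces. -/
theorem no_basis :
    ∃ (E : Type) (_ : NormedAddCommGroup E) (_ : NormedSpace ℝ E), CompleteSpace E ∧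
      (∃ x : ℕ → E, IsTBasis (fun n m : ℕ => if m ≤ n then (1 : ℝ) / (n + 1) else 0) x) ∧
      (∀ x : ℕ → E, ¬ ∀ y : E, ∃! α : ℕ → ℝ,
        Tendsto (fun n => ∑ i ∈ range n, α i • x i) atTop (𝓝 y)) ∧
      ∀ F : ℕ → Submodule ℝ E, (∀ i, FiniteDimensional ℝ (F i)) → ¬ ∀ y : E, ∃! c : ∀ i, F i,
        Tendsto (fun n => ∑ i ∈ range n, (c i : E)) atTop (𝓝 y) := by
  obtain ⟨E, i1, i2, i3, -, ⟨b, h1⟩, h2⟩ := result
  refine ⟨E, i1, i2, i3, ⟨b, h1 _ cesaro_ok.1 ⟨1, Nf.tbg_ces⟩⟩, fun x hx => ?_, fun F hf hF => ?_⟩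
  · obtain ⟨P, p1, p2, p3⟩ := Nf.side_basis x hx
    exact h2 P p1 p2 p3
  · obtain ⟨P, p1, p2, p3⟩ := Nf.side_fdd F hf hF
    exact h2 P p1 p2 p3

end Pool.Agent.Results.MP_f511bc_an.NoProjections
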