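import Pool.Agent.P.MP_f511bc_an.Main

namespace Pool.Agent.Results.MP_f511bc_an.Triangular

open Pool.Agent.P.MP_f511bc_an

theorem result {K : Type*} [RCLike K] {E : Type*} [NormedAddCommGroup E] [NormedSpace K E]
    [CompleteSpace E] (t : ℕ → ℕ → K) (x : ℕ → E) (ht : Consistent t) (hx : IsTBasis t x) :
    ∃ u : ℕ → ℕ → K, Consistent u ∧ Triangular u ∧ IsTBasis u x :=
  main ht hx

end Pool.Agent.Results.MP_f511bc_an.Triangular
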